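import Pool.Agent.Q284.PS.Stm2

/-!
# Project PS, job LIN: duality and minimal norm solutions of moment equations
-/

set_option autoImplicit false

open Finset Polynomial ComplexConjugate

namespace Pool.Agent.Q166.PS.Lin

open Pool.Agent.Q284.PS

theorem nsq_nonneg {ι : Type} [Fintype ι] (c : ι → ℂ) : 0 ≤ nsq c :=
  Finset.sum_nonneg fun i _ => by positivity

/-- Cauchy-Schwarz -/
theorem cs {α : Type} (S : Finset α) (f g : α → ℂ) :
    ‖∑ x ∈ S, f x * g x‖ ^ 2 ≤ (∑ x ∈ S, ‖f x‖ ^ 2) * ∑ x ∈ S, ‖g x‖ ^ 2 := by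
  have h1 : ‖∑ x ∈ S, f x * g x‖ ≤ ∑ x ∈ S, ‖f x‖ * ‖g x‖ :=
    (norm_sum_le _ _).trans (le_of_eq (Finset.sum_congr rfl fun x _ => norm_mul _ _))
  calc ‖∑ x ∈ S, f x * g x‖ ^ 2 ≤ (∑ x ∈ S, ‖f x‖ * ‖g x‖) ^ 2 :=
        pow_le_pow_left₀ (norm_nonneg _) h1 2
    _ ≤ _ := Finset.sum_mul_sq_le_sq_mul_sq _ _ _

theorem t_DUAL : S_DUAL := by
  intro α S ι _ φ U hU h b
  set t : ι → ℂ := fun i => ∑ x ∈ S, b x * φ i x with ht
  have hT : ((∑ i, ‖t i‖ ^ 2 : ℝ) : ℂ) = ∑ x ∈ S, b x * ∑ i, conj (t i) * φ i x := by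
    have e1 : ((∑ i, ‖t i‖ ^ 2 : ℝ) : ℂ) = ∑ i, conj (t i) * t i := by
      push_cast
      refine Finset.sum_congr rfl fun i _ => ?_
      rw [← Complex.normSq_eq_conj_mul_self, Complex.normSq_eq_norm_sq]
      push_cast
      rfl
    rw [e1]
    have e2 : ∀ i, conj (t i) * t i = ∑ x ∈ S, b x * (conj (t i) * φ i x) := by
      intro i
      conv_lhs => rw [ht]
      simp only
      rw [Finset.mul_sum]
      refine Finset.sum_congr rfl fun x _ => by ring
    rw [Finset.sum_congr rfl fun i _ => e2 i, Finset.sum_comm]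
    refine Finset.sum_congr rfl fun x _ => ?_
    rw [Finset.mul_sum]
  set T : ℝ := ∑ i, ‖t i‖ ^ 2 with hTd
  have hT0 : 0 ≤ T := Finset.sum_nonneg fun i _ => by positivity
  have hB0 : 0 ≤ ∑ x ∈ S, ‖b x‖ ^ 2 := Finset.sum_nonneg fun i _ => by positivity
  have h2 : T ^ 2 ≤ (∑ x ∈ S, ‖b x‖ ^ 2) * (U * T) := by
    have e3 : T = ‖∑ x ∈ S, b x * ∑ i, conj (t i) * φ i x‖ := by
      rw [← hT, Complex.norm_real, Real.norm_eq_abs, abs_of_nonneg hT0]
    have e4 : nsq (fun i => conj (t i)) = T := by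
      unfold nsq
      rw [hTd]
      refine Finset.sum_congr rfl fun i _ => ?_
      rw [RCLike.norm_conj]
    calc T ^ 2 = ‖∑ x ∈ S, b x * ∑ i, conj (t i) * φ i x‖ ^ 2 := by rw [← e3]
      _ ≤ (∑ x ∈ S, ‖b x‖ ^ 2) * ∑ x ∈ S, ‖∑ i, conj (t i) * φ i x‖ ^ 2 := cs _ _ _
      _ ≤ (∑ x ∈ S, ‖b x‖ ^ 2) * (U * T) := by
          refine mul_le_mul_of_nonneg_left ?_ hB0
          have := h (fun i => conj (t i))
          rwa [e4] at this
  rcases hT0.eq_or_lt with h0 | h0
  · rw [← h0]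
    positivity
  · have h3 : T * T ≤ (U * ∑ x ∈ S, ‖b x‖ ^ 2) * T := by nlinarith
    exact le_of_mul_le_mul_right h3 h0

/-- the Gram map -/
noncomputable def L {α : Type} (S : Finset α) {ι : Type} [Fintype ι] (φ : ι → α → ℂ) :
    (ι → ℂ) →ₗ[ℂ] (ι → ℂ) where
  toFun c i := ∑ x ∈ S, (∑ j, c j * conj (φ j x)) * φ i x
  map_add' c c' := by
    funext i
    simp only [Pi.add_apply]
    rw [← Finset.sum_add_distrib]
    refine Finset.sum_congr rfl fun x _ => ?_
    rw [← add_mul, ← Finset.sum_add_distrib]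
    congr 1
    refine Finset.sum_congr rfl fun j _ => by ring
  map_smul' z c := by
    funext i
    simp only [Pi.smul_apply, smul_eq_mul, RingHom.id_apply]
    rw [Finset.mul_sum]
    refine Finset.sum_congr rfl fun x _ => ?_
    rw [← mul_assoc, Finset.mul_sum]
    congr 1
    refine Finset.sum_congr rfl fun j _ => by ring

theorem energy {α : Type} (S : Finset α) {ι : Type} [Fintype ι] (φ : ι → α → ℂ) (c : ι → ℂ) :
    ((∑ x ∈ S, ‖∑ j, c j * conj (φ j x)‖ ^ 2 : ℝ) : ℂ) = ∑ i, conj (c i) * L S φ c i := by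
  have e2 : ∀ i, conj (c i) * L S φ c i =
      ∑ x ∈ S, (∑ j, c j * conj (φ j x)) * (conj (c i) * φ i x) := by
    intro i
    change conj (c i) * ∑ x ∈ S, (∑ j, c j * conj (φ j x)) * φ i x = _
    rw [Finset.mul_sum]
    refine Finset.sum_congr rfl fun x _ => by ring
  rw [Finset.sum_congr rfl fun i _ => e2 i, Finset.sum_comm]
  push_cast
  refine Finset.sum_congr rfl fun x _ => ?_
  rw [← Finset.mul_sum]
  have e3 : ∑ i, conj (c i) * φ i x = conj (∑ j, c j * conj (φ j x)) := by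
    rw [map_sum]
    refine Finset.sum_congr rfl fun j _ => ?_
    rw [map_mul, Complex.conj_conj]
  rw [e3, Complex.mul_conj, Complex.normSq_eq_norm_sq]
  push_cast
  rfl

theorem t_LIN : S_LIN := by
  intro α S ι _ φ lo t hlo h1 h
  have hlow : ∀ c : ι → ℂ, lo * nsq c ≤ ∑ x ∈ S, ‖∑ j, c j * conj (φ j x)‖ ^ 2 := by
    intro c
    have h2 := h (fun i => conj (c i))
    have e1 : nsq (fun i => conj (c i)) = nsq c := by
      unfold nsq
      refine Finset.sum_congr rfl fun i _ => ?_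
      rw [RCLike.norm_conj]
    rw [e1] at h2
    refine h2.trans (le_of_eq ?_)
    refine Finset.sum_congr rfl fun x _ => ?_
    have e2 : ∑ i, conj (c i) * φ i x = conj (∑ j, c j * conj (φ j x)) := by
      rw [map_sum]
      refine Finset.sum_congr rfl fun j _ => ?_
      rw [map_mul, Complex.conj_conj]
    rw [e2, RCLike.norm_conj]
  have hinj : Function.Injective (L S φ) := by
    rw [← LinearMap.ker_eq_bot, LinearMap.ker_eq_bot']
    intro c hc
    have e1 := energy S φ c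
    rw [hc] at e1
    simp only [Pi.zero_apply, mul_zero, Finset.sum_const_zero] at e1
    have e2 : (∑ x ∈ S, ‖∑ j, c j * conj (φ j x)‖ ^ 2 : ℝ) = 0 := by exact_mod_cast e1
    have e3 := hlow c
    rw [e2] at e3
    have e4 : nsq c ≤ 0 := by
      by_contra h5
      push Not at h5
      have := mul_pos hlo h5
      linarith
    have e5 : nsq c = 0 := le_antisymm e4 (nsq_nonneg c)
    unfold nsq at e5
    rw [Finset.sum_eq_zero_iff_of_nonneg (fun i _ => by positivity)] at e5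
    funext i
    have := e5 i (Finset.mem_univ i)
    simpa using this
  have hsurj : Function.Surjective (L S φ) := LinearMap.surjective_of_injective hinj
  obtain ⟨c, hc⟩ := hsurj t
  have hE := energy S φ c
  rw [hc] at hE
  set E : ℝ := ∑ x ∈ S, ‖∑ j, c j * conj (φ j x)‖ ^ 2 with hEd
  have hE0 : 0 ≤ E := Finset.sum_nonneg fun i _ => by positivity
  have hlc := hlow c
  rw [← hEd] at hlc
  have hcs : E ^ 2 ≤ nsq c * nsq t := by
    have e3 : E = ‖∑ i, conj (c i) * t i‖ := by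
      rw [← hE, Complex.norm_real, Real.norm_eq_abs, abs_of_nonneg hE0]
    calc E ^ 2 = ‖∑ i, conj (c i) * t i‖ ^ 2 := by rw [← e3]
      _ ≤ (∑ i, ‖conj (c i)‖ ^ 2) * ∑ i, ‖t i‖ ^ 2 := cs _ _ _
      _ = nsq c * nsq t := by
          unfold nsq
          congr 1
          refine Finset.sum_congr rfl fun i _ => ?_
          rw [RCLike.norm_conj]
  have hn0 := nsq_nonneg c
  have ht0 := nsq_nonneg t
  have hn1 : nsq c ≤ E / lo := by
    rw [le_div_iff₀ hlo]
    linarith
  have hn2 : lo ^ 2 * nsq c ≤ nsq t := by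
    rcases hn0.eq_or_lt with h0 | h0
    · rw [← h0]
      simpa using ht0
    · have h3 : (lo * nsq c) ^ 2 ≤ nsq c * nsq t :=
        (pow_le_pow_left₀ (by positivity) hlc 2).trans hcs
      have h4 : (lo ^ 2 * nsq c) * nsq c ≤ nsq t * nsq c := by nlinarith
      exact le_of_mul_le_mul_right h4 h0
  refine ⟨fun x => ∑ j, c j * conj (φ j x), ?_, ?_, ?_⟩
  · intro i
    exact congrFun hc i
  · change E ≤ nsq t / lo
    rw [le_div_iff₀ hlo]
    rcases hE0.eq_or_lt with h0 | h0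
    · rw [← h0]
      simpa using ht0
    · have h3 : lo * E ^ 2 ≤ E * nsq t := by
        calc lo * E ^ 2 ≤ lo * (nsq c * nsq t) := mul_le_mul_of_nonneg_left hcs hlo.le
          _ = (lo * nsq c) * nsq t := by ring
          _ ≤ E * nsq t := mul_le_mul_of_nonneg_right hlc ht0
      have h4 : (E * lo) * E ≤ nsq t * E := by nlinarith
      exact le_of_mul_le_mul_right h4 h0
  · intro x hx
    have h3 : ‖∑ j, c j * conj (φ j x)‖ ^ 2 ≤ (Fintype.card ι : ℝ) * nsq t / lo ^ 2 := by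
      calc ‖∑ j, c j * conj (φ j x)‖ ^ 2
          ≤ (∑ j, ‖c j‖ ^ 2) * ∑ j, ‖conj (φ j x)‖ ^ 2 := cs _ _ _
        _ ≤ nsq c * (Fintype.card ι : ℝ) := by
            refine mul_le_mul_of_nonneg_left ?_ hn0
            calc ∑ j, ‖conj (φ j x)‖ ^ 2 ≤ ∑ _j : ι, (1 : ℝ) := by
                  refine Finset.sum_le_sum fun j _ => ?_
                  rw [RCLike.norm_conj]
                  exact pow_le_one₀ (norm_nonneg _) (h1 j x hx)
              _ = (Fintype.card ι : ℝ) := by simp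
        _ ≤ (nsq t / lo ^ 2) * (Fintype.card ι : ℝ) := by
            refine mul_le_mul_of_nonneg_right ?_ (Nat.cast_nonneg _)
            rw [le_div_iff₀ (by positivity)]
            linarith
        _ = _ := by ring
    have h4 : (Real.sqrt (Fintype.card ι) * Real.sqrt (nsq t) / lo) ^ 2 =
        (Fintype.card ι : ℝ) * nsq t / lo ^ 2 := by
      rw [div_pow, mul_pow, Real.sq_sqrt (Nat.cast_nonneg _), Real.sq_sqrt ht0]
    rw [← h4] at h3
    exact (sq_le_sq₀ (norm_nonneg _) (by positivity)).1 h3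

end Pool.Agent.Q166.PS.Lin
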