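import Pool.Agent.Q284.PS.Stm2

/-!
# Project PS, job VAN: orthogonality of Hayes characters on monic polynomials
-/

set_option autoImplicit false

open Finset Polynomial ComplexConjugate
open Pool.Agent.H341R2.Sharp (Mon mem_Mon)

namespace Pool.Agent.Q166.PS.Van

open Pool.Agent.Q284.PS

theorem sum_zero {F : Type} [Field F] [Fintype F] {Q : F[X]} {l : ℕ} {ψ : F[X] → ℂ}
    (hψ : Hay Q l ψ) (h : F[X]) (hh : h.Monic) (h0 : ψ h ≠ 0) (h1 : ψ h ≠ 1) (m : ℕ)
    (hm : Q.natDegree + l ≤ m) : ∑ g ∈ Mon F m, ψ g = 0 := by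
  classical
  have hQ := hψ.monic
  have hcop : IsCoprime h Q := by
    by_contra hc
    exact h0 (hψ.zero h hh hc)
  set e := h.natDegree with he
  have hX : (X ^ e : F[X]).Monic := monic_X_pow e
  let T : F[X] → F[X] := fun g => (h * g) /ₘ X ^ e
  let Φ : F[X] → F[X] := fun g => Q * (T g /ₘ Q) + (h * g) %ₘ Q
  have hTc : ∀ g : F[X], ∀ j, (T g).coeff j = (h * g).coeff (j + e) := by
    intro g j
    have h2 := modByMonic_add_div (h * g) (X ^ e)
    have h3 : (h * g).coeff (j + e) =
        ((h * g) %ₘ X ^ e + X ^ e * ((h * g) /ₘ X ^ e)).coeff (j + e) := by rw [h2]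
    rw [h3, coeff_add, coeff_X_pow_mul]
    have h4 : ((h * g) %ₘ X ^ e).coeff (j + e) = 0 := by
      refine coeff_eq_zero_of_degree_lt ?_
      refine (degree_modByMonic_lt _ hX).trans_le ?_
      rw [degree_X_pow]
      exact_mod_cast (Nat.le_add_left e j)
    rw [h4, zero_add]
  have hTm : ∀ g ∈ Mon F m, (T g).Monic ∧ (T g).natDegree = m := by
    intro g hg
    rw [mem_Mon] at hg
    have hmon : (h * g).Monic := hh.mul hg.1
    have hdeg : (h * g).natDegree = e + m := by rw [hh.natDegree_mul hg.1, hg.2]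
    have h2 : (X ^ e : F[X]).degree ≤ (h * g).degree := by
      rw [degree_X_pow, degree_eq_natDegree hmon.ne_zero, hdeg]
      exact_mod_cast (Nat.le_add_right e m)
    constructor
    · rw [Monic, leadingCoeff_divByMonic_of_monic hX h2]
      exact hmon
    · change ((h * g) /ₘ X ^ e).natDegree = m
      rw [natDegree_divByMonic _ hX, hdeg, natDegree_X_pow]
      omega
  have hΦm : ∀ g ∈ Mon F m, (Φ g).Monic ∧ (Φ g).natDegree = m := by
    intro g hg
    obtain ⟨hT1, hT2⟩ := hTm g hg
    have hdeg1 : ((h * g) %ₘ Q).degree < Q.degree := degree_modByMonic_lt _ hQ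
    have h2 : Q.degree ≤ (T g).degree := by
      rw [degree_eq_natDegree hQ.ne_zero, degree_eq_natDegree hT1.ne_zero, hT2]
      exact_mod_cast (by omega : Q.natDegree ≤ m)
    have hmq : (T g /ₘ Q).Monic := by
      rw [Monic, leadingCoeff_divByMonic_of_monic hQ h2]
      exact hT1
    have hfq : (Q * (T g /ₘ Q)).Monic := hQ.mul hmq
    have hnd : (Q * (T g /ₘ Q)).natDegree = m := by
      rw [hQ.natDegree_mul hmq, natDegree_divByMonic _ hQ, hT2]
      omega
    have hdeg2 : ((h * g) %ₘ Q).degree < (Q * (T g /ₘ Q)).degree := by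
      refine hdeg1.trans_le ?_
      rw [degree_eq_natDegree hQ.ne_zero, degree_eq_natDegree hfq.ne_zero, hnd]
      exact_mod_cast (by omega : Q.natDegree ≤ m)
    refine ⟨hfq.add_of_left hdeg2, ?_⟩
    change (Q * (T g /ₘ Q) + (h * g) %ₘ Q).natDegree = m
    rw [natDegree_add_eq_left_of_degree_lt hdeg2, hnd]
  have hΦ : ∀ g ∈ Mon F m, Φ g ∈ Mon F m := fun g hg => mem_Mon.2 (hΦm g hg)
  have hinj : Set.InjOn Φ (Mon F m) := by
    intro g hg g' hg' hgg
    have e1 : T g /ₘ Q = T g' /ₘ Q ∧ (h * g) %ₘ Q = (h * g') %ₘ Q := by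
      have hu1 := div_modByMonic_unique (f := Φ g) (g := Q) (T g /ₘ Q) ((h * g) %ₘ Q) hQ
        ⟨by change (h * g) %ₘ Q + Q * (T g /ₘ Q) = Q * (T g /ₘ Q) + (h * g) %ₘ Q; ring,
          degree_modByMonic_lt _ hQ⟩
      have hu2 := div_modByMonic_unique (f := Φ g') (g := Q) (T g' /ₘ Q) ((h * g') %ₘ Q) hQ
        ⟨by change (h * g') %ₘ Q + Q * (T g' /ₘ Q) = Q * (T g' /ₘ Q) + (h * g') %ₘ Q; ring,
          degree_modByMonic_lt _ hQ⟩
      constructor
      · rw [← hu1.1, ← hu2.1, hgg]
      · rw [← hu1.2, ← hu2.2, hgg]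
    have e2 : Q ∣ h * (g - g') := by
      have : (h * (g - g')) %ₘ Q = 0 := by
        rw [mul_sub, sub_modByMonic, e1.2, sub_self]
      exact (modByMonic_eq_zero_iff_dvd hQ).1 this
    have e3 : Q ∣ g - g' := hcop.symm.dvd_of_dvd_mul_left e2
    have e4 : T g - T g' = T g %ₘ Q - T g' %ₘ Q := by
      have h1 := modByMonic_add_div (T g) Q
      have h2 := modByMonic_add_div (T g') Q
      calc T g - T g' = (T g %ₘ Q + Q * (T g /ₘ Q)) - (T g' %ₘ Q + Q * (T g' /ₘ Q)) := by
            rw [h1, h2]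
        _ = _ := by rw [e1.1]; ring
    have e5 : (T g - T g').degree < Q.degree := by
      rw [e4]
      exact (degree_sub_le _ _).trans_lt
        (max_lt (degree_modByMonic_lt _ hQ) (degree_modByMonic_lt _ hQ))
    have e6 : (g - g').degree < Q.degree := by
      by_contra hc
      have hne : g - g' ≠ 0 := by
        intro h3
        rw [h3, degree_zero] at hc
        apply hc
        rw [bot_lt_iff_ne_bot]
        exact fun h4 => hQ.ne_zero (degree_eq_bot.1 h4)
      rw [degree_eq_natDegree hne, degree_eq_natDegree hQ.ne_zero] at hc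
      have hc' : Q.natDegree ≤ (g - g').natDegree := by
        by_contra h5
        exact hc (by exact_mod_cast (not_le.1 h5))
      have h6 : (h * (g - g')).coeff ((g - g').natDegree + e) = (g - g').leadingCoeff := by
        rw [add_comm, he, coeff_mul_degree_add_degree, hh.leadingCoeff, one_mul]
      have h7 : (T g - T g').coeff (g - g').natDegree = (g - g').leadingCoeff := by
        rw [coeff_sub, hTc, hTc, ← coeff_sub, ← mul_sub, h6]
      have h8 : (T g - T g').coeff (g - g').natDegree = 0 := by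
        refine coeff_eq_zero_of_degree_lt (e5.trans_le ?_)
        rw [degree_eq_natDegree hQ.ne_zero]
        exact_mod_cast hc'
      rw [h8] at h7
      exact hne (leadingCoeff_eq_zero.1 h7.symm)
    exact sub_eq_zero.1 (eq_zero_of_dvd_of_degree_lt e3 e6)
  have hval : ∀ g ∈ Mon F m, ψ (Φ g) = ψ h * ψ g := by
    intro g hg
    have hg' := mem_Mon.1 hg
    obtain ⟨hP1, hP2⟩ := hΦm g hg
    rw [← hψ.mul h g hh hg'.1]
    have hmon : (h * g).Monic := hh.mul hg'.1
    have hdeg : (h * g).natDegree = e + m := by rw [hh.natDegree_mul hg'.1, hg'.2]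
    refine hψ.per _ _ hP1 hmon ?_ ?_
    · have h2 := modByMonic_add_div (h * g) Q
      refine ⟨T g /ₘ Q - (h * g) /ₘ Q, ?_⟩
      change Q * (T g /ₘ Q) + (h * g) %ₘ Q - h * g = _
      calc Q * (T g /ₘ Q) + (h * g) %ₘ Q - h * g
          = Q * (T g /ₘ Q) + (h * g) %ₘ Q - ((h * g) %ₘ Q + Q * ((h * g) /ₘ Q)) := by rw [h2]
        _ = _ := by ring
    · rw [X_pow_dvd_iff]
      intro i hi
      rw [coeff_sub, coeff_reverse, coeff_reverse, hP2, hdeg, revAt_le (by omega),
        revAt_le (by omega)]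
      have h3 : (Φ g).coeff (m - i) = (T g).coeff (m - i) := by
        have h4 := modByMonic_add_div (T g) Q
        have h5 : (Φ g) - T g = (h * g) %ₘ Q - T g %ₘ Q := by
          calc (Φ g) - T g = (Q * (T g /ₘ Q) + (h * g) %ₘ Q) - (T g %ₘ Q + Q * (T g /ₘ Q)) := by
                rw [h4]
            _ = _ := by ring
        have h6 : (Φ g - T g).coeff (m - i) = 0 := by
          refine coeff_eq_zero_of_degree_lt ?_
          rw [h5]
          refine ((degree_sub_le _ _).trans_lt
            (max_lt (degree_modByMonic_lt _ hQ) (degree_modByMonic_lt _ hQ))).trans_le ?_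
          rw [degree_eq_natDegree hQ.ne_zero]
          exact_mod_cast (by omega : Q.natDegree ≤ m - i)
        rw [coeff_sub] at h6
        exact sub_eq_zero.1 h6
      rw [h3, hTc]
      have h7 : m - i + e = e + m - i := by omega
      rw [h7, sub_self]
  have hbij : ∑ g ∈ Mon F m, ψ (Φ g) = ∑ g ∈ Mon F m, ψ g := by
    have himg : (Mon F m).image Φ = Mon F m := by
      refine Finset.eq_of_subset_of_card_le ?_ ?_
      · intro x hx
        obtain ⟨g, hg, rfl⟩ := Finset.mem_image.1 hx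
        exact hΦ g hg
      · rw [Finset.card_image_of_injOn hinj]
    calc ∑ g ∈ Mon F m, ψ (Φ g) = ∑ x ∈ (Mon F m).image Φ, ψ x :=
          (Finset.sum_image hinj).symm
      _ = _ := by rw [himg]
  rw [Finset.sum_congr rfl hval, ← Finset.mul_sum] at hbij
  have h9 : (ψ h - 1) * ∑ g ∈ Mon F m, ψ g = 0 := by rw [sub_mul, hbij, one_mul, sub_self]
  rcases mul_eq_zero.1 h9 with h10 | h10
  · exact absurd (sub_eq_zero.1 h10) h1
  · exact h10

theorem t_VAN : S_VAN := by
  intro F _ _ Q l ψ hψ hex d k hd hk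
  classical
  obtain ⟨h, hh, h0, h1⟩ := hex
  have hz := sum_zero hψ h hh h0 h1 (k - d.natDegree) (by omega)
  have himg : (Mon F k).filter (fun f => d ∣ f) =
      (Mon F (k - d.natDegree)).image (fun g => d * g) := by
    ext f
    rw [Finset.mem_filter, Finset.mem_image, mem_Mon]
    constructor
    · rintro ⟨⟨hf1, hf2⟩, g, rfl⟩
      have hg : g.Monic := hd.of_mul_monic_left hf1
      refine ⟨g, mem_Mon.2 ⟨hg, ?_⟩, rfl⟩
      rw [hd.natDegree_mul hg] at hf2
      omega
    · rintro ⟨g, hg, rfl⟩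
      rw [mem_Mon] at hg
      refine ⟨⟨hd.mul hg.1, ?_⟩, dvd_mul_right _ _⟩
      rw [hd.natDegree_mul hg.1, hg.2]
      omega
  have hfin : ∑ f ∈ (Mon F k).filter (fun f => d ∣ f), ψ f = 0 := by
    rw [himg, Finset.sum_image (fun g _ g' _ hgg => mul_left_cancel₀ hd.ne_zero hgg)]
    rw [Finset.sum_congr rfl fun g hg => hψ.mul d g hd (mem_Mon.1 hg).1, ← Finset.mul_sum, hz,
      mul_zero]
  rw [← hfin]

end Pool.Agent.Q166.PS.Van
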